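import Mathlib
import Pool.Agent.Y234.FP.Fin
import Pool.Agent.Y681.FP.HI
import Pool.Agent.Y293.FP.GE
import Pool.Agent.Y151.FP.Sp
import Pool.Agent.Y592.FP2.NA
import Pool.Agent.Y410.FP.HV
import Pool.Agent.Y465.FP.ZG
import Pool.Agent.Y994.FP.Co
import Pool.Agent.Y65.FP.BH
import Pool.Agent.Y171.FP.BL
import Pool.Agent.Y427.FP.St

set_option autoImplicit false

open AlgebraicGeometry CategoryTheory MvPolynomial
open Pool.Agent.Results.MP_94ed3e_ag.FatPoint

namespace Pool.Agent.Results.MP_94ed3e_ag.AllOrders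

universe u

/-- the grading of `k[x, z, y_1, ..., y_r]` by `ℤ × ℤ`: `deg x = (1,0)`, `deg z = (1,1)`,
`deg y_i = (0,1)` for all `i` -/
def grading (r : ℕ) : Fin (r + 2) → ℤ × ℤ := Fin.cons (1, 0) (Fin.cons (1, 1) (fun _ => (0, 1)))

/-- the ring `k[b_1, ..., b_r] / (b_1, ..., b_r)^m` -/
abbrev FatRing (k : Type u) [Field k] (r m : ℕ) : Type u :=
  MvPolynomial (Fin r) k ⧸ (Ideal.span (Set.range (X : Fin r → MvPolynomial (Fin r) k))) ^ m

/-- For every field `k`, every `r ≥ 1` and every `m ≥ 2`, the fat point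
`Spec k[b_1,...,b_r]/(b_1,...,b_r)^m` (the `(m-1)`-st infinitesimal neighbourhood of the origin in
affine `r`-space, of length `binomial (r+m-1) r`) is, as a scheme over `k`, a multigraded Hilbert
scheme of the polynomial ring `k[x, z, y_1, ..., y_r]` graded by `ℤ × ℤ`. In particular there are
multigraded Hilbert schemes whose fat point component has embedding dimension `r` and nilpotency
order `m`, for all `r ≥ 1` and `m ≥ 2`. -/
theorem result (k : Type u) [Field k] (r m : ℕ) (hr : 1 ≤ r) (hm : 2 ≤ m) :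
    ∃ h : ℤ × ℤ → ℕ,
      RepresentsHilb k (grading r) h (Spec (CommRingCat.of (FatRing k r m)))
        (Spec.map (CommRingCat.ofHom (algebraMap k (FatRing k r m)))) ∧
      HasFatPointComponent k (Spec (CommRingCat.of (FatRing k r m)))
        (Spec.map (CommRingCat.ofHom (algebraMap k (FatRing k r m)))) ∧
      Module.finrank k (FatRing k r m) = (r + m - 1).choose r :=
  ⟨_, Pool.Agent.Y234.FP.main Pool.Agent.Y427.FP.t_ST
    (Pool.Agent.Y681.FP.t_HI Pool.Agent.Y427.FP.t_WE)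
    (Pool.Agent.Y151.FP.t_SP Pool.Agent.Y427.FP.t_WE)
    (Pool.Agent.Y293.FP.t_UQ Pool.Agent.Y427.FP.t_WE)
    (Pool.Agent.Y592.FP2.t_NA (Pool.Agent.Y293.FP.t_GE Pool.Agent.Y427.FP.t_WE)
      (Pool.Agent.Y151.FP.t_SP Pool.Agent.Y427.FP.t_WE))
    (Pool.Agent.Y465.FP.t_ZG Pool.Agent.Y427.FP.t_WE Pool.Agent.Y410.FP.t_HV)
    (Pool.Agent.Y994.FP.t_CO Pool.Agent.Y427.FP.t_WE Pool.Agent.Y410.FP.t_HV)
    Pool.Agent.Y65.FP.t_BH Pool.Agent.Y171.FP.t_BL k r m hr hm⟩

end Pool.Agent.Results.MP_94ed3e_ag.AllOrders
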