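import Pool.Agent.Y188.FP.Fin
import Pool.Agent.Y188.FP.Alg

/-!
# Every monomial fat point is a multigraded Hilbert scheme

`hilb w h T` (the multigraded Hilbert functor of Haiman and Sturmfels), `RepresentsHilb` and
`HasFatPointComponent` are the definitions of the earlier file `FatPoint.lean` on this problem.
-/

open MvPolynomial CategoryTheory AlgebraicGeometry
open Pool.Agent.Results.MP_94ed3e_ag.FatPoint
open Pool.Agent.Y188.FP

universe u

namespace Pool.Agent.Results.MP_94ed3e_ag.MonomialFatPoints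

/-- the upper set of exponents generated by `M` -/
def up {r : ℕ} (M : Set (Fin r →₀ ℕ)) : Set (Fin r → ℕ) := {d | ∃ c ∈ M, ∀ i, c i ≤ d i}

lemma up_upZ {r : ℕ} (M : Set (Fin r →₀ ℕ)) : UpZ (up M) := by
  rintro d ⟨c, hc, hcd⟩ d' hd
  exact ⟨c, hc, fun i => (hcd i).trans (hd i)⟩

lemma zero_notMem_up {r : ℕ} {M : Set (Fin r →₀ ℕ)} (h0 : (0 : Fin r →₀ ℕ) ∉ M) :
    (0 : Fin r → ℕ) ∉ up M := by
  rintro ⟨c, hc, hcd⟩
  apply h0
  have : c = 0 := by
    ext i
    exact Nat.le_zero.1 (hcd i)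
  rwa [← this]

lemma eqs_up_iff {r : ℕ} (M : Set (Fin r →₀ ℕ)) {T : Type u} [CommRing T] (b : Fin r → T) :
    Eqs (up M) b ↔ ∀ c ∈ M, ∏ i, b i ^ c i = 0 := by
  constructor
  · intro h c hc
    exact h _ ⟨c, hc, fun i => le_rfl⟩
  · rintro h d ⟨c, hc, hcd⟩
    have h1 : ∏ i, b i ^ d i = (∏ i, b i ^ c i) * ∏ i, b i ^ (d i - c i) := by
      rw [← Finset.prod_mul_distrib]
      refine Finset.prod_congr rfl fun i _ => ?_
      rw [← pow_add, Nat.add_sub_cancel' (hcd i)]
    rw [h1, h c hc, zero_mul]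

/-- the parametrisation of the Hilbert functor -/
noncomputable def parEquiv {r : ℕ} {M : Set (Fin r →₀ ℕ)} {m : ℕ} (hm : 1 ≤ m)
    (h0 : (0 : Fin r →₀ ℕ) ∉ M) (hmZ : ∀ i, Pi.single i m ∈ up M) (T : Type u) [CommRing T] :
    {b : Fin r → T // ∀ c ∈ M, ∏ i, b i ^ c i = 0} ≃
      hilb (wt (finProdFinEquiv (m := r) (n := 3)))
        (hf (finProdFinEquiv (m := r) (n := 3)) (up M) m) T :=
  Equiv.ofBijective (fun b => ⟨idl finProdFinEquiv (up_upZ M) ((eqs_up_iff M b.1).2 b.2),
      idl_mem_hilb finProdFinEquiv (up_upZ M) (zero_notMem_up h0) _⟩) (by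
    constructor
    · intro b b' hbb'
      exact Subtype.ext (idl_injective finProdFinEquiv hm (zero_notMem_up h0) (up_upZ M)
        ((eqs_up_iff M b.1).2 b.2) ((eqs_up_iff M b'.1).2 b'.2) (congrArg Subtype.val hbb'))
    · rintro ⟨I, hI⟩
      obtain ⟨b, hb, h⟩ := complete finProdFinEquiv hI (zero_notMem_up h0) (up_upZ M) hm hmZ
      exact ⟨⟨b, (eqs_up_iff M b).1 hb⟩, Subtype.ext h⟩)

lemma represents {r : ℕ} {M : Set (Fin r →₀ ℕ)} {m : ℕ} (hm : 1 ≤ m)
    (h0 : (0 : Fin r →₀ ℕ) ∉ M) (hmZ : ∀ i, Pi.single i m ∈ up M) (k : Type u) [Field k] :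
    RepresentsHilb k (wt (finProdFinEquiv (m := r) (n := 3)))
      (hf (finProdFinEquiv (m := r) (n := 3)) (up M) m)
      (Spec (CommRingCat.of (MvPolynomial (Fin r) k ⧸ monoIdeal k M)))
      (Spec.map (CommRingCat.ofHom
        (algebraMap k (MvPolynomial (Fin r) k ⧸ monoIdeal k M)))) := by
  refine representsHilb_Spec (fun T _ _ => (algEquiv k M T).trans (parEquiv hm h0 hmZ T)) ?_
  intro T T' _ _ _ _ φ f
  exact (map_idl finProdFinEquiv (φ : T →+* T') (up_upZ M) (zero_notMem_up h0)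
    ((eqs_up_iff M (algEquiv k M T f).1).2 (algEquiv k M T f).2)
    ((eqs_up_iff M (algEquiv k M T' (φ.comp f)).1).2 (algEquiv k M T' (φ.comp f)).2)).symm

/-- The algebra `k[t_1, ..., t_r] / (t ^ c : c ∈ M)`. -/
def MonoAlg (k : Type u) [Field k] {r : ℕ} (M : Set (Fin r →₀ ℕ)) : Type u :=
  MvPolynomial (Fin r) k ⧸ monoIdeal k M

noncomputable instance instRing (k : Type u) [Field k] {r : ℕ} (M : Set (Fin r →₀ ℕ)) :
    CommRing (MonoAlg k M) :=
  inferInstanceAs (CommRing (MvPolynomial (Fin r) k ⧸ monoIdeal k M))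

noncomputable instance instAlg (k : Type u) [Field k] {r : ℕ} (M : Set (Fin r →₀ ℕ)) :
    Algebra k (MonoAlg k M) :=
  inferInstanceAs (Algebra k (MvPolynomial (Fin r) k ⧸ monoIdeal k M))

/-- The scheme `Spec (k[t_1, ..., t_r] / (t ^ c : c ∈ M))`. -/
noncomputable def MonoSpec (k : Type u) [Field k] {r : ℕ} (M : Set (Fin r →₀ ℕ)) : Scheme.{u} :=
  Spec (CommRingCat.of (MonoAlg k M))

/-- The structure morphism of `MonoSpec k M`. -/
noncomputable def monoStr (k : Type u) [Field k] {r : ℕ} (M : Set (Fin r →₀ ℕ)) :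
    MonoSpec k M ⟶ Spec (CommRingCat.of k) :=
  Spec.map (CommRingCat.ofHom (algebraMap k (MonoAlg k M)))

/-- **Every monomial fat point is a multigraded Hilbert scheme.** Let `J = (t ^ c : c ∈ M)` be any
monomial ideal of `k[t_1, ..., t_r]`, not the unit ideal, which contains a power of every variable.
There are a grading `w` of the polynomial ring in `3 r` variables by the group `(ℤ × ℤ) ^ r` and a
function `h`, the same for all fields `k`, such that the (whole) multigraded Hilbert scheme is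
`Spec (k[t_1, ..., t_r] / J)`. This is the spectrum of a local Artinian `k`-algebra, and if not all
variables lie in `J` it is a fat point. (`M = {(m)}`, `r = 1`: all `Spec (k[t] / t ^ m)`.) -/
theorem result (r : ℕ) (M : Set (Fin r →₀ ℕ)) (h0 : (0 : Fin r →₀ ℕ) ∉ M)
    (hM : ∀ i, ∃ c, Finsupp.single i c ∈ M) :
    ∃ (w : Fin (r * 3) → (Fin r → ℤ × ℤ)) (h : (Fin r → ℤ × ℤ) → ℕ),
      ∀ (k : Type u) [Field k],
        RepresentsHilb k w h (MonoSpec k M) (monoStr k M) ∧
        IsLocalRing (MonoAlg k M) ∧ IsArtinianRing (MonoAlg k M) ∧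
        ((∃ i, Finsupp.single i 1 ∉ M) →
          HasFatPointComponent k (MonoSpec k M) (monoStr k M)) := by
  choose c hc using hM
  have hc1 : ∀ i, 1 ≤ c i := by
    intro i
    by_contra hcon
    apply h0
    have h1 : c i = 0 := by omega
    have h2 := hc i
    rwa [h1, Finsupp.single_zero] at h2
  obtain ⟨m, hm, hcm⟩ : ∃ m, 1 ≤ m ∧ ∀ i, c i ≤ m :=
    ⟨1 + ∑ i, c i, by omega, fun i => by
      have := Finset.single_le_sum (f := c) (fun j _ => Nat.zero_le _) (Finset.mem_univ i)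
      omega⟩
  have hmZ : ∀ i, Pi.single i m ∈ up M := by
    intro i
    refine ⟨_, hc i, fun j => ?_⟩
    by_cases hj : j = i
    · subst hj
      rw [Finsupp.single_eq_same, Pi.single_eq_same]
      exact hcm j
    · rw [Finsupp.single_apply, if_neg (fun h => hj h.symm)]
      exact Nat.zero_le _
  have hM : ∀ i, ∃ c, Finsupp.single i c ∈ M := fun i => ⟨c i, hc i⟩
  refine ⟨wt finProdFinEquiv, hf finProdFinEquiv (up M) m, fun k _ => ⟨?_, ?_, ?_, ?_⟩⟩
  · exact represents hm h0 hmZ k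
  · exact isLocal k h0 hM
  · exact isArtinian k h0 hM
  · intro h1
    have hloc : IsLocalRing (MonoAlg k M) := isLocal k h0 hM
    refine ⟨⊤, isClosed_univ, ?_, MonoAlg k M, inferInstance,
      inferInstance, Scheme.topIso _, hloc, isArtinian k h0 hM, not_isField k h0 hM h1, rfl⟩
    have hsub : Subsingleton (PrimeSpectrum (MonoAlg k M)) := subsingleton_spec k h0 hM
    refine ⟨?_, ?_⟩
    · exact ⟨IsLocalRing.closedPoint (MonoAlg k M), trivial⟩
    · exact Set.Subsingleton.isPreconnected (fun x _ y _ => hsub.elim x y)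

end Pool.Agent.Results.MP_94ed3e_ag.MonomialFatPoints
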